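import Pool.Agent.helper47.SC.Spec

/-!
# Row sc:MEA (MP_0015b7_an): the shear preserves measure
-/

open scoped Topology ContDiff
open Set Filter Metric MeasureTheory

namespace Pool.Agent.SC

private theorem MEA_vol (g : ℂ × ℂ) (A : Set (ℂ × ℂ)) :
    (volume : Measure (ℂ × ℂ)) ((fun b : ℂ × ℂ => g + b) ⁻¹' A) = volume A := by
  have h1 : (volume : Measure ℂ).IsAddHaarMeasure := inferInstance
  have h2 : (volume : Measure (ℂ × ℂ)).IsAddHaarMeasure :=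
    Measure.prod.instIsAddHaarMeasure (volume : Measure ℂ) (volume : Measure ℂ)
  exact measure_preimage_add (volume : Measure (ℂ × ℂ)) g A

/-- the version with measurable functions -/
private theorem MEA_meas (T : Set C3) (h₁ h₂ : C2 → ℂ) (hT : MeasurableSet T)
    (hpos : 0 < volume T) (m₁ : Measurable h₁) (m₂ : Measurable h₂) :
    0 < volume {z : C4 | ‖z.1‖ < 1 ∧ (Psi h₁ h₂ z).2 ∈ T} := by
  rw [pos_iff_ne_zero]
  intro h0
  have hpsi : Measurable fun z : C4 => (Psi h₁ h₂ z).2 := by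
    unfold Psi
    fun_prop
  have hmeas : MeasurableSet {z : C4 | ‖z.1‖ < 1 ∧ (Psi h₁ h₂ z).2 ∈ T} := by
    refine MeasurableSet.inter ?_ (hpsi hT)
    exact measurableSet_lt measurable_fst.norm measurable_const
  rw [Measure.volume_eq_prod, Measure.measure_prod_null hmeas] at h0
  have hball : (volume : Measure ℂ) (ball (0 : ℂ) 1) ≠ 0 :=
    (measure_ball_pos _ _ one_pos).ne'
  have hex : ∃ x : ℂ, x ∈ ball (0 : ℂ) 1 ∧
      (volume : Measure C3) (Prod.mk x ⁻¹' {z : C4 | ‖z.1‖ < 1 ∧ (Psi h₁ h₂ z).2 ∈ T}) = 0 := by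
    by_contra hne
    push Not at hne
    apply hball
    refine measure_mono_null ?_ (ae_iff.mp h0)
    intro x hx
    exact hne x hx
  obtain ⟨x, hx, hx0⟩ := hex
  rw [mem_ball_zero_iff] at hx
  have hmx : MeasurableSet (Prod.mk x ⁻¹' {z : C4 | ‖z.1‖ < 1 ∧ (Psi h₁ h₂ z).2 ∈ T}) :=
    measurable_prodMk_left hmeas
  rw [Measure.volume_eq_prod, Measure.measure_prod_null hmx] at hx0
  have hT0 : volume T = 0 := by
    rw [Measure.volume_eq_prod, Measure.measure_prod_null hT]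
    filter_upwards [hx0] with u hu
    have e1 : (Prod.mk u ⁻¹' (Prod.mk x ⁻¹' {z : C4 | ‖z.1‖ < 1 ∧ (Psi h₁ h₂ z).2 ∈ T})) =
        (fun b : ℂ × ℂ => ((-(h₁ (x, u)), -(h₂ (x, u))) : ℂ × ℂ) + b) ⁻¹' (Prod.mk u ⁻¹' T) := by
      ext b
      have e2 : (Psi h₁ h₂ (x, u, b)).2 = (u, ((-(h₁ (x, u)), -(h₂ (x, u))) : ℂ × ℂ) + b) := by
        simp only [Psi, Prod.mk.injEq, true_and]
        ext
        · simp [sub_eq_neg_add]
        · simp [sub_eq_neg_add]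
      change (‖x‖ < 1 ∧ (Psi h₁ h₂ (x, u, b)).2 ∈ T) ↔
        (u, ((-(h₁ (x, u)), -(h₂ (x, u))) : ℂ × ℂ) + b) ∈ T
      rw [e2]
      exact ⟨fun h => h.2, fun h => ⟨hx, h⟩⟩
    rw [e1, MEA_vol] at hu
    exact hu
  exact hpos.ne' hT0

theorem MEA : MEA_stmt := by
  intro T h₁ h₂ hT hsm hpos hc₁ hc₂
  have hU : MeasurableSet {p : C2 | ‖p.1‖ < 1 ∧ ‖p.2‖ < 1 / 4} := by
    refine MeasurableSet.inter ?_ ?_
    · exact measurableSet_lt measurable_fst.norm measurable_const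
    · exact measurableSet_lt measurable_snd.norm measurable_const
  classical
  set g₁ : C2 → ℂ := fun p => if p ∈ {p : C2 | ‖p.1‖ < 1 ∧ ‖p.2‖ < 1 / 4} then h₁ p else 0 with hg₁
  set g₂ : C2 → ℂ := fun p => if p ∈ {p : C2 | ‖p.1‖ < 1 ∧ ‖p.2‖ < 1 / 4} then h₂ p else 0 with hg₂
  have m₁ : Measurable g₁ := by
    have := hc₁.measurable_piecewise (g := fun _ => (0 : ℂ)) continuousOn_const hU
    exact this
  have m₂ : Measurable g₂ := by
    have := hc₂.measurable_piecewise (g := fun _ => (0 : ℂ)) continuousOn_const hU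
    exact this
  have h1 := MEA_meas T g₁ g₂ hT.measurableSet hpos m₁ m₂
  refine h1.trans_le (measure_mono ?_)
  rintro z ⟨hz1, hz2⟩
  refine ⟨hz1, ?_⟩
  have h3 : ‖z.2.1‖ < 1 / 4 := hsm (Psi g₁ g₂ z).2 hz2
  have h4 : (z.1, z.2.1) ∈ {p : C2 | ‖p.1‖ < 1 ∧ ‖p.2‖ < 1 / 4} := ⟨hz1, h3⟩
  have e1 : g₁ (z.1, z.2.1) = h₁ (z.1, z.2.1) := if_pos h4
  have e2 : g₂ (z.1, z.2.1) = h₂ (z.1, z.2.1) := if_pos h4
  have e3 : (Psi h₁ h₂ z).2 = (Psi g₁ g₂ z).2 := by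
    simp only [Psi, e1, e2]
  rw [e3]
  exact hz2

end Pool.Agent.SC
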