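import Pool.Agent.helper82.SC.SpecA

/-!
# sp: module CT1 (one move inside `B`)
-/

namespace Pool.Agent.helper82.SC

open Relation

theorem CT1_link_symm (D : Dom) (ψ : Dart → ZMod 2) {x y : Dart} (h : D.Link ψ x y) :
    D.Link ψ y x := by
  obtain ⟨h1, h2, h3⟩ := h
  refine ⟨h2, h1, ?_⟩
  rcases h3 with ⟨h4, h5, h6⟩ | ⟨h4, h5⟩
  · exact Or.inl ⟨h5 ▸ h4, h5.symm, h6.symm⟩
  · refine Or.inr ⟨h4.symm, ?_⟩
    rw [h5, star_star]

theorem CT1_symm (D : Dom) (ψ : Dart → ZMod 2) {x y : Dart} (h : D.Cn ψ x y) : D.Cn ψ y x := by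
  induction h with
  | refl => exact ReflTransGen.refl
  | tail _ hbc ih => exact ReflTransGen.head (CT1_link_symm D ψ hbc) ih

theorem CT1_mv_off (f : F) (d e : Fin 3) (ψ : Dart → ZMod 2) (x : Dart) (hx : x.1 ≠ f) :
    mv f d e ψ x = ψ x := by
  unfold mv
  rw [if_neg (fun h => hx (congrArg Prod.fst h)), if_neg (fun h => hx (congrArg Prod.fst h))]
  simp

theorem CT1_fin3 (j k : Fin 3) (h : k ≠ j) : k = j + 1 ∨ k = j + 2 := by
  revert j k
  decide

theorem CT1_ne1 : ∀ j : Fin 3, j + 1 ≠ j := by decide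

theorem CT1_ne2 : ∀ j : Fin 3, j + 2 ≠ j := by decide

theorem CT1_ne3 : ∀ j : Fin 3, j + 1 ≠ j + 2 := by decide

theorem CT1 (hMV : MV_stmt) (hFC : FC_stmt) (hEX : EX_stmt) : CT1_stmt := by
  intro D B f d e j hfB hf
  unfold Mn
  refine div_le_div_of_nonneg_right ?_ (by positivity)
  norm_cast
  have hfin : ({ψ | ψ ∈ D.Conf (f, e) ∧ D.Jn ψ (f, e) j ∧
      ¬ ∃ x : Dart, x.1 ∈ B ∧ D.Cn ψ (star (D.a (j + 1))) x}).Finite :=
    (hFC D (f, e) hf).1.subset (fun ψ h => h.1)
  refine Set.ncard_le_ncard_of_injOn (mv f d e) ?_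
    ((hMV D f d e hf).injOn.mono (fun ψ h => h.1)) hfin
  rintro ψ ⟨hψ, hJ, hno⟩
  have hφ : mv f d e ψ ∈ D.Conf (f, e) := (hMV D f d e hf).mapsTo hψ
  have hf' : ∀ x : Dart, D.Cn ψ (star (D.a (j + 1))) x → x.1 ≠ f := by
    intro x hx h
    exact hno ⟨x, h ▸ hfB, hx⟩
  obtain ⟨j0, hj0, huniq, hpair, hsep⟩ := hEX D (f, d) hf ψ hψ
  have hjj : j = j0 := huniq j hJ
  subst hjj
  have hj1 : j + 1 ≠ j := CT1_ne1 j
  have hj2 : j + 2 ≠ j := CT1_ne2 j
  -- classes agree
  have key1 : ∀ x, D.Cn ψ (star (D.a (j + 1))) x → D.Cn (mv f d e ψ) (star (D.a (j + 1))) x := by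
    intro x hx
    induction hx with
    | refl => exact ReflTransGen.refl
    | tail hab hbc ih =>
      rename_i b c
      refine ReflTransGen.tail ih ?_
      have hb := hf' b hab
      have hc := hf' c (ReflTransGen.tail hab hbc)
      obtain ⟨h1, h2, h3⟩ := hbc
      exact ⟨by rw [CT1_mv_off f d e ψ b hb]; exact h1,
        by rw [CT1_mv_off f d e ψ c hc]; exact h2, h3⟩
  have key2 : ∀ x, D.Cn (mv f d e ψ) (star (D.a (j + 1))) x → D.Cn ψ (star (D.a (j + 1))) x := by
    intro x hx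
    induction hx with
    | refl => exact ReflTransGen.refl
    | tail hab hbc ih =>
      rename_i b c
      have hb := hf' b ih
      obtain ⟨h1, h2, h3⟩ := hbc
      rw [CT1_mv_off f d e ψ b hb] at h1
      by_cases hc : c.1 = f
      · exfalso
        -- the link goes across a side of f
        have hcs : c = star b := by
          rcases h3 with ⟨_, h5, _⟩ | ⟨_, h5⟩
          · exact absurd (h5.trans hc) hb
          · exact h5
        have hsym := hψ.2.1 b
        by_cases hz : c = (f, d)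
        · -- b is the free half of the source side
          have hbz : b = star (f, d) := by rw [← hz, hcs, star_star]
          have hψz : ψ (f, d) = 0 := by
            rw [← hz, hcs, hsym, h1, if_pos (Or.inr hbz)]
            decide
          have hzp : zp ψ (f, d) = b := by
            unfold zp
            rw [hψz, if_neg (by decide), hbz]
          exact (hsep (j + 1) hj1).2 (by rw [hzp]; exact ih)
        · have hne : ¬ (b = (f, d) ∨ b = star (f, d)) := by
            rintro (h | h)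
            · exact hb (congrArg Prod.fst h)
            · apply hz
              rw [hcs, h, star_star]
          rw [if_neg hne, add_zero] at hsym
          have hc1 : ψ c = 1 := by rw [hcs, hsym, h1]
          exact hf' c (ReflTransGen.tail ih ⟨h1, hc1, h3⟩) hc
      · rw [CT1_mv_off f d e ψ c hc] at h2
        exact ReflTransGen.tail ih ⟨h1, h2, h3⟩
  refine ⟨hφ, ?_, ?_⟩
  · obtain ⟨j', hj', -, -, hsep'⟩ := hEX D (f, e) hf _ hφ
    have hcn := key1 _ (hpair (j + 1) (j + 2) hj1 hj2)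
    by_cases h : j' = j
    · rw [← h]; exact hj'
    · exfalso
      have h12 : j + 1 ≠ j + 2 := CT1_ne3 j
      rcases CT1_fin3 j j' h with h' | h'
      · subst h'
        exact (hsep' (j + 2) h12.symm).1 (CT1_symm D _ hcn)
      · subst h'
        exact (hsep' (j + 1) h12).1 hcn
  · rintro ⟨x, hxB, hx⟩
    exact hno ⟨x, hxB, key2 x hx⟩

end Pool.Agent.helper82.SC
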